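import Mathlib

/-! Fixed-angle chains in 3-space: simple configurations, instances and spans. -/

namespace Pool.Agent.MP_e5fd74_lc.H66

open EuclideanGeometry

/-- Euclidean 3-space. -/
abbrev E3 : Type := EuclideanSpace ℝ (Fin 3)

/-- `v 0, …, v n` is a simple configuration of the chain with `n` links, link lengths
`l 0, …, l (n-1)` and joint angles `θ 0, …, θ (n-2)`. -/
def IsConfig (n : ℕ) (l θ : ℕ → ℝ) (v : ℕ → E3) : Prop :=
  (∀ i, i < n → dist (v i) (v (i + 1)) = l i) ∧
  (∀ i, i + 1 < n → ∠ (v i) (v (i + 1)) (v (i + 2)) = θ i) ∧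
  (∀ i, i + 1 < n →
    segment ℝ (v i) (v (i + 1)) ∩ segment ℝ (v (i + 1)) (v (i + 2)) = {v (i + 1)}) ∧
  ∀ i j, i + 1 < j → j < n → Disjoint (segment ℝ (v i) (v (i + 1))) (segment ℝ (v j) (v (j + 1)))

/-- An input: the list of lengths, the list of angle codes, the bound. -/
abbrev Inst : Type := List ℚ × List ℚ × ℚ

/-- The input describes a chain: one angle fewer than links, positive lengths, and angles
`ang q` strictly between `0` and `π`. -/
def Valid (ang : ℚ → ℝ) (I : Inst) : Prop :=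
  I.1.length = I.2.1.length + 1 ∧ (∀ l ∈ I.1, 0 < l) ∧ ∀ q ∈ I.2.1, 0 < ang q ∧ ang q < Real.pi

/-- All numbers of the input have numerator and denominator of absolute value at most `B`. -/
def Small (B : ℕ) (I : Inst) : Prop :=
  ∀ q ∈ I.2.2 :: (I.1 ++ I.2.1), q.num.natAbs ≤ B ∧ q.den ≤ B

/-- The spans of the simple configurations in 3-space of the chain described by the input. -/
def Spans (ang : ℚ → ℝ) (I : Inst) : Set ℝ :=
  {d | ∃ v : ℕ → E3, IsConfig I.1.length (fun i => ((I.1.getD i 0 : ℚ) : ℝ))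
    (fun i => ang (I.2.1.getD i 0)) v ∧ d = dist (v 0) (v I.1.length)}

end Pool.Agent.MP_e5fd74_lc.H66
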